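import Pool.Agent.Helper98.GY.Stmts
import Pool.Agent.Helper29.IZ.GRI

/-! Row GRI of the sheet GY: Riemann integrable vectors. -/

open Finset Filter MeasureTheory Topology
open scoped ComplexConjugate InnerProductSpace

namespace Pool.Agent.Helper29.GY

open Pool.Agent.Helper16.AZ (T E Op mm)
open Pool.Agent.Helper16.BZ (co ff EQ)
open Pool.Agent.Helper16.MD (MS)
open Pool.Agent.Helper40.DZ (xri_MS)
open Pool.Agent.Helper40.IZ (gri_norm)
open Pool.Agent.Helper98.GY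

theorem avg {Y : Type} [MetricSpace Y] [MeasurableSpace Y] {ν : Measure Y} {S : Y → Y}
    (hE : EQ S ν) (R : C(Y, ℝ)) (x : Y) :
    Tendsto (fun N : ℕ => (∑ n ∈ Icc 1 N, R (S^[n] x)) / (N : ℝ)) atTop
      (𝓝 (∫ y, R y ∂ν)) := by
  have h1 := hE 1 le_rfl (fun y => ((R y : ℝ) : ℂ)) (Complex.continuous_ofReal.comp R.continuous)
    (S x)
  have h2 := (Complex.continuous_re.tendsto _).comp h1
  have h3 : (∫ y, ((R y : ℝ) : ℂ) ∂ν).re = ∫ y, R y ∂ν := by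
    rw [integral_complex_ofReal]
    exact Complex.ofReal_re _
  rw [h3] at h2
  refine h2.congr fun N => ?_
  have h4 : ∑ n ∈ Icc 1 N, R (S^[n] x) = ∑ n ∈ range N, R (S^[n + 1] x) := by
    rw [Finset.range_eq_Ico, Finset.sum_Ico_add' (fun n => R (S^[n] x)) 0 N 1]
    rfl
  rw [h4]
  show ((∑ n ∈ range N, ((R (S^[1 * n] (S x)) : ℝ) : ℂ)) / (N : ℂ)).re = _
  have h5 : (∑ n ∈ range N, ((R (S^[1 * n] (S x)) : ℝ) : ℂ)) / (N : ℂ) =
      (((∑ n ∈ range N, R (S^[n + 1] x)) / (N : ℝ) : ℝ) : ℂ) := by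
    push_cast
    congr 1
    refine Finset.sum_congr rfl fun n _ => ?_
    rw [one_mul, Function.iterate_succ_apply]
  rw [h5]
  exact Complex.ofReal_re _

theorem st_GRI (hRIS : ST_RIS) : ST_GRI := by
  intro Y _ _ _ _ ν _ S hS hE d φ v u x hφ hv
  obtain ⟨hv1, C, hC⟩ := hv
  rw [Metric.tendsto_atTop]
  intro ε hε
  have hu : 0 < ‖u‖ + 1 := by positivity
  obtain ⟨G, R, hGc, hRc, h1, -, -, h3⟩ := hRIS Y ν (E d) v C hv1 hC (ε / (4 * (‖u‖ + 1)))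
    (by positivity)
  have h4 := hS d φ G u x hφ hGc
  rw [Metric.tendsto_atTop] at h4
  obtain ⟨N₁, hN₁⟩ := h4 (ε / 4) (by linarith)
  have h5 := avg hE ⟨R, hRc⟩ x
  rw [Metric.tendsto_atTop] at h5
  obtain ⟨N₂, hN₂⟩ := h5 (ε / (4 * (‖u‖ + 1))) (by positivity)
  refine ⟨max (max N₁ N₂) 1, fun N hN => ?_⟩
  have hN1 : N₁ ≤ N := (le_max_left _ _).trans ((le_max_left _ _).trans hN)
  have hN2 : N₂ ≤ N := (le_max_right _ _).trans ((le_max_left _ _).trans hN)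
  have hN3 : 1 ≤ N := (le_max_right _ _).trans hN
  have hNp : (0 : ℝ) < N := by exact_mod_cast hN3
  have h6 := hN₁ N hN1
  have h7 := hN₂ N hN2
  rw [dist_zero_right] at h6 ⊢
  rw [Real.dist_eq] at h7
  have h8 := xri_MS (ff S φ v u x) (ff S φ G u x) (fun n => R (S^[n] x) * ‖u‖) (fun n => by
    show ‖(inner ℂ (v (S^[n] x)) (co S φ n x u) : ℂ) - inner ℂ (G (S^[n] x)) (co S φ n x u)‖ ≤ _
    rw [← inner_sub_left]
    refine (norm_inner_le_norm _ _).trans ?_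
    rw [gri_norm (Pool.Agent.Helper16.BZ.co_unitary S φ hφ.2 n x)]
    exact mul_le_mul_of_nonneg_right (h1 _) (norm_nonneg _)) N
  rw [← Finset.sum_mul] at h8
  set A : ℝ := (∑ n ∈ Icc 1 N, R (S^[n] x)) / (N : ℝ) with hA
  have hA2 : A < ε / (2 * (‖u‖ + 1)) := by
    have h9 := (abs_lt.mp h7).2
    have h10 : ∫ y, (⟨R, hRc⟩ : C(Y, ℝ)) y ∂ν ≤ ε / (4 * (‖u‖ + 1)) := h3
    have h11 : ε / (4 * (‖u‖ + 1)) + ε / (4 * (‖u‖ + 1)) = ε / (2 * (‖u‖ + 1)) := by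
      field_simp; ring
    have h12 : A - ∫ y, (⟨R, hRc⟩ : C(Y, ℝ)) y ∂ν < ε / (4 * (‖u‖ + 1)) := h9
    linarith
  have hA0 : 0 ≤ A := div_nonneg (Finset.sum_nonneg fun n _ =>
    (norm_nonneg _).trans (h1 (S^[n] x))) hNp.le
  have h9 : ‖(MS (ff S φ v u x) N - MS (ff S φ G u x) N) / (N : ℂ)‖ ≤ A * ‖u‖ := by
    rw [norm_div, Complex.norm_natCast, hA, div_mul_eq_mul_div]
    exact div_le_div_of_nonneg_right h8 hNp.le
  have h10 : A * ‖u‖ < ε / 2 + ε / 8 := by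
    have h11 : A * ‖u‖ ≤ A * (‖u‖ + 1) := mul_le_mul_of_nonneg_left (by linarith) hA0
    have h12 : A * (‖u‖ + 1) < ε / (2 * (‖u‖ + 1)) * (‖u‖ + 1) :=
      mul_lt_mul_of_pos_right hA2 hu
    have h13 : ε / (2 * (‖u‖ + 1)) * (‖u‖ + 1) = ε / 2 := by field_simp
    linarith
  have h11 : MS (ff S φ v u x) N / (N : ℂ) =
      (MS (ff S φ v u x) N - MS (ff S φ G u x) N) / (N : ℂ) + MS (ff S φ G u x) N / (N : ℂ) := by
    rw [← add_div, sub_add_cancel]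
  rw [h11]
  calc _ ≤ _ + _ := norm_add_le _ _
    _ < ε := by linarith

end Pool.Agent.Helper29.GY
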